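import Pool.Agent.Lib.MP_43d240_ag.FZ.Iface

/-!
PROJECT PI (MP_43d240_ag), chart algebra, module FRAC: `L` is the fraction field of the chart
algebra.
-/

namespace Pool.Agent.PI.FZ.H65

open MvPolynomial

theorem frac : FRAC_S := by
  intro k L J Λ _ _ _ x r htop
  refine IsFractionRing.of_field _ _ ?_
  intro z
  have hz : z ∈ IntermediateField.adjoin k (Set.range x ∪ Set.range (fun p : J × Λ => r p.1 p.2)) := by
    rw [htop]; trivial
  rw [IntermediateField.mem_adjoin_iff_div] at hz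
  obtain ⟨a, ha, b, hb, hab⟩ := hz
  exact ⟨⟨a, ha⟩, ⟨b, hb⟩, hab⟩

end Pool.Agent.PI.FZ.H65
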